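import Pool.Agent.Work.MP_cda74c_nt.Final

namespace Pool.Agent.Results.MP_cda74c_nt.FraenkelSimpson

/-- Fraenkel-Simpson conjecture. The residue classes `a i mod m i` have distinct moduli
`m i ≥ 2`, no positive integer lies in two of them, and the reciprocals of the moduli sum to `1`.
Then every modulus has the form `2 ^ α * 3 ^ β`. -/
theorem result {I : Type*} (a : I → ℤ) (m : I → ℕ) (hm : ∀ i, 2 ≤ m i)
    (hdistinct : Function.Injective m)
    (hdisjoint : ∀ n : ℤ, 1 ≤ n → ∀ i j, n ≡ a i [ZMOD m i] → n ≡ a j [ZMOD m j] → i = j)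
    (hsum : HasSum (fun i => (1 : ℝ) / m i) 1) :
    ∀ i, ∃ α β : ℕ, m i = 2 ^ α * 3 ^ β :=
  fun i => Pool.Agent.Work.MP_cda74c_nt.fraenkel_simpson a m hm hdistinct hdisjoint hsum i

end Pool.Agent.Results.MP_cda74c_nt.FraenkelSimpson
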