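import Pool.Agent.Work.MP_cda74c_nt.Hedge.Asym

namespace Pool.Agent.Results.MP_cda74c_nt.LargestPrime

open Filter Topology

/-- For `r ≥ 1` there is a largest prime `P r` dividing a modulus of an infinite disjoint covering
system of the positive integers with reciprocal sum `1` in which every modulus occurs at most `r`
times, and `P r / (r log r)` tends to `exp γ`. -/
theorem result : ∃ P : ℕ → ℕ,
    (∀ r : ℕ, 1 ≤ r → IsGreatest {p : ℕ | p.Prime ∧ ∃ (I : Type) (a : I → ℤ) (m : I → ℕ),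
      Infinite I ∧ (∀ i, 2 ≤ m i) ∧ (∀ n : ℤ, 1 ≤ n → ∃! i, n ≡ a i [ZMOD m i]) ∧
      HasSum (fun i => (1 : ℝ) / m i) 1 ∧ (∀ d : ℕ, {i | m i = d}.encard ≤ r) ∧
      ∃ i, p ∣ m i} (P r)) ∧
    Tendsto (fun r : ℕ => (P r : ℝ) / (r * Real.log r)) atTop
      (𝓝 (Real.exp Real.eulerMascheroniConstant)) :=
  Pool.Agent.Work.MP_cda74c_nt.Hedge.largest

end Pool.Agent.Results.MP_cda74c_nt.LargestPrime
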