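import Pool.Agent.Work.MP_cda74c_nt.Hedge.Multi

namespace Pool.Agent.Results.MP_cda74c_nt.MultipleCovers

/-- For `k ≥ 2`, a set `M` of integers `≥ 2` is the set of moduli of a system with distinct moduli
covering every positive integer exactly `k` times and with reciprocal sum `k` if and only if
`k = 2` and `M` consists of all numbers `2 ^ α * 3 ^ β ≥ 2`. -/
theorem result (k : ℕ) (hk : 2 ≤ k) (M : Set ℕ) (hM : ∀ m ∈ M, 2 ≤ m) :
    (∃ a : ℕ → ℤ, (∀ n : ℤ, 1 ≤ n → {m : ℕ | m ∈ M ∧ n ≡ a m [ZMOD m]}.encard = k) ∧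
      HasSum (fun m : M => (1 : ℝ) / (m : ℕ)) k) ↔
    k = 2 ∧ M = {m : ℕ | 2 ≤ m ∧ ∃ α β : ℕ, m = 2 ^ α * 3 ^ β} :=
  Pool.Agent.Work.MP_cda74c_nt.Hedge.multi k hk M hM

end Pool.Agent.Results.MP_cda74c_nt.MultipleCovers
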